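import Pool.Agent.L7h99.GF.Stm
import Pool.Agent.L7h23.SC.Asm

/-!
Project GF (helper99), part ASF: assembly over the windows with the Fisher information.
-/

set_option autoImplicit false

open MeasureTheory Set Filter Topology Real
open scoped ENNReal

namespace Pool.Agent.L7h23.GF

open Pool.Agent.L7h99.SC Pool.Agent.L7h99.LS Pool.Agent.L7h23.SC Pool.Agent.L7h99.GF

variable {d : ℕ}

/-- The one-dimensional inequality behind the localization, with the error in terms of `B`. -/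
theorem imsF {L : ℕ} (hL : 1 ≤ L) {ω C : ℝ} (hω : 0 < ω) (hC : ∀ a t, |deriv (angL a) t| ≤ C)
    {A B : ℝ} (hB : 0 ≤ B) (hAB : B * ω ≤ 4 * A) {t₀ : ℝ} (ht : 0 ≤ t₀) (M : ℕ) :
    ∑ w ∈ Finset.range M, (Real.cos (angL (L - 1) (w * L - t₀)) ^ 2 * A -
      Real.cos (angL (L - 1) (w * L - t₀)) * Real.sin (angL (L - 1) (w * L - t₀)) *
        deriv (angL (L - 1)) (w * L - t₀) * B +
        Real.sin (angL (L - 1) (w * L - t₀)) ^ 2 * deriv (angL (L - 1)) (w * L - t₀) ^ 2 * B / ω) ≤
      A + C ^ 2 * B / ω := by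
  have hL' : (1 : ℝ) ≤ L := by exact_mod_cast hL
  have hL0 : (0 : ℝ) < L := by linarith
  have ha : (0 : ℝ) ≤ L - 1 := by linarith
  set g : ℕ → ℝ := fun w => (Real.cos (angL (L - 1) (w * L - t₀)) ^ 2 * A -
      Real.cos (angL (L - 1) (w * L - t₀)) * Real.sin (angL (L - 1) (w * L - t₀)) *
        deriv (angL (L - 1)) (w * L - t₀) * B +
        Real.sin (angL (L - 1) (w * L - t₀)) ^ 2 * deriv (angL (L - 1)) (w * L - t₀) ^ 2 * B / ω) with hg
  set p := ⌊t₀ / L⌋₊ with hp
  have hp1 : (p : ℝ) ≤ t₀ / L := Nat.floor_le (by positivity)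
  have hp2 : t₀ / L < p + 1 := Nat.lt_floor_add_one _
  rw [le_div_iff₀ hL0] at hp1
  rw [div_lt_iff₀ hL0] at hp2
  have hA : 0 ≤ A := by nlinarith
  have hz : ∀ w, w ≠ p → w ≠ p + 1 → g w = 0 := by
    intro w h1 h2
    have h3 := far hL ht h1 h2
    have h3' : 1 ≤ (w : ℝ) * L - t₀ ∨ (w : ℝ) * L - t₀ ≤ -((L : ℝ) - 1) - 1 := by
      rcases h3 with h | h
      · left; exact h
      · right; linarith
    simp only [hg]
    rw [angL_out ha h3', dangL_out ha h3', Real.cos_pi_div_two]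
    ring
  have hnn : ∀ w, 0 ≤ g w := by
    intro w
    simp only [hg]
    set x := Real.cos (angL (L - 1) (w * L - t₀))
    set y := Real.sin (angL (L - 1) (w * L - t₀)) * deriv (angL (L - 1)) (w * L - t₀)
    have e : x ^ 2 * A - x * Real.sin (angL (L - 1) (w * L - t₀)) * deriv (angL (L - 1)) (w * L - t₀) * B +
        Real.sin (angL (L - 1) (w * L - t₀)) ^ 2 * deriv (angL (L - 1)) (w * L - t₀) ^ 2 * B / ω =
        x ^ 2 * (A - B * ω / 4) + B / ω * (x * ω / 2 - y) ^ 2 := by
      simp only [y]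
      field_simp
      ring
    rw [e]
    have : 0 ≤ A - B * ω / 4 := by linarith
    positivity
  rw [Pool.Agent.L7h99.LS.sum_two g p hz M]
  have hle : (if p < M then g p else 0) + (if p + 1 < M then g (p + 1) else 0) ≤
      g p + g (p + 1) := by
    have := hnn p
    have := hnn (p + 1)
    split_ifs <;> linarith
  refine hle.trans ?_
  set t : ℝ := ((p : ℝ) + 1) * L - t₀ with htd
  have ht0 : 0 ≤ t := by linarith
  have e1 : (p : ℝ) * L - t₀ = t - 1 - (L - 1) := by rw [htd]; ring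
  have e2 : ((p + 1 : ℕ) : ℝ) * L - t₀ = t := by rw [htd]; push_cast; ring
  simp only [hg]
  rw [e1, e2]
  rcases le_or_gt t 1 with ht1 | ht1
  · rw [angL_shift ha ht0 ht1, dangL_shift ha ht0 ht1, Real.cos_pi_div_two_sub,
      Real.sin_pi_div_two_sub]
    have hsc := Real.sin_sq_add_cos_sq (angL (L - 1) t)
    set x := Real.cos (angL (L - 1) t)
    set y := Real.sin (angL (L - 1) t)
    set D := deriv (angL (L - 1)) t with hDdef
    have e3 : y ^ 2 * A - y * x * -D * B + x ^ 2 * (-D) ^ 2 * B / ω +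
        (x ^ 2 * A - x * y * D * B + y ^ 2 * D ^ 2 * B / ω) =
        (y ^ 2 + x ^ 2) * (A + D ^ 2 * B / ω) := by
      ring
    rw [e3, hsc, one_mul]
    have hD : D ^ 2 ≤ C ^ 2 := by
      rw [← sq_abs D]
      exact pow_le_pow_left₀ (abs_nonneg _) (hC _ t) 2
    have h5 : D ^ 2 * B / ω ≤ C ^ 2 * B / ω :=
      div_le_div_of_nonneg_right (mul_le_mul_of_nonneg_right hD hB) hω.le
    linarith
  · rw [angL_in ha (t := t - 1 - (L - 1)) (by linarith) (by
      have h6 : t ≤ L := by linarith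
      linarith),
      dangL_in ha (t := t - 1 - (L - 1)) (by linarith) (by
      have h6 : t ≤ L := by linarith
      linarith),
      angL_out ha (Or.inl ht1.le), dangL_out ha (Or.inl ht1.le), Real.cos_zero, Real.sin_zero,
      Real.cos_pi_div_two]
    have h7 : 0 ≤ C ^ 2 * B / ω := by positivity
    refine le_trans (le_of_eq ?_) (le_add_of_nonneg_right h7)
    simp

/-- The density of the Fisher information. -/
noncomputable def fd {n : ℕ} (f : Fin n → (Fin d → ℝ) → ℝ) (x : Fin d → ℝ) : ℝ :=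
  ∑ k, LTd.pd k (den f) x ^ 2 / den f x

theorem fd_nonneg {n : ℕ} (f : Fin n → (Fin d → ℝ) → ℝ) (x : Fin d → ℝ) : 0 ≤ fd f x :=
  Finset.sum_nonneg fun _ _ => div_nonneg (sq_nonneg _) (den_nonneg f x)

theorem fd_le {n : ℕ} {f : Fin n → (Fin d → ℝ) → ℝ} (hf : ∀ i, ContDiff ℝ 1 (f i))
    (x : Fin d → ℝ) : fd f x ≤ 4 * ∑ k, ∑ i, LTd.pd k (f i) x ^ 2 := by
  unfold fd
  rw [Finset.mul_sum]
  refine Finset.sum_le_sum fun k _ => ?_
  have h0 : 0 ≤ ∑ i, LTd.pd k (f i) x ^ 2 := Finset.sum_nonneg fun i _ => sq_nonneg _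
  rcases (den_nonneg f x).lt_or_eq with hr | hr
  · rw [div_le_iff₀ hr]
    have := pd_den_sq hf x k
    linarith
  · rw [← hr, div_zero]
    positivity

theorem fd_integrable {n : ℕ} {f : Fin n → (Fin d → ℝ) → ℝ} (hf : ∀ i, ContDiff ℝ 1 (f i))
    (hfc : ∀ i, HasCompactSupport (f i)) : Integrable (fd f) := by
  refine ((kin_integrable hf hfc).const_mul 4).mono' ?_ ?_
  · have hm : Measurable (fd f) := by
      unfold fd
      refine Finset.measurable_sum _ fun k _ => ?_
      have h := LTd.pd_basic (den_C1 hf) (den_supp hfc) k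
      exact (h.1.measurable.pow_const 2).div (den_C1 hf).continuous.measurable
    exact hm.aestronglyMeasurable
  · refine Eventually.of_forall fun x => ?_
    rw [Real.norm_eq_abs, abs_of_nonneg (fd_nonneg f x)]
    exact fd_le hf x

theorem fis0_eq {n : ℕ} (f : Fin n → (Fin d → ℝ) → ℝ) : fis0 f = ∫ x, fd f x := rfl

/-- The localization error, pointwise. -/
theorem local_errF {n : ℕ} {F : Fin n → (Fin d → ℝ) → ℝ} (hF : ∀ i, ContDiff ℝ 1 (F i))
    {L : ℕ} (hL : 1 ≤ L) {ω C c : ℝ} (hω : 0 < ω) (hC : ∀ a t, |deriv (angL a) t| ≤ C)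
    (x : Fin d → ℝ) (hc : den F x ≤ Real.exp (ω * c)) (M : ℕ) :
    ∑ w ∈ Finset.range M, ∑ k, ∑ i,
      LTd.pd k (fun x => wf L ω c w (den F x) * F i x) x ^ 2 ≤
      (∑ k, ∑ i, LTd.pd k (F i) x ^ 2) + C ^ 2 / ω ^ 2 * fd F x := by
  unfold fd
  rw [Finset.sum_comm, Finset.mul_sum, ← Finset.sum_add_distrib]
  refine Finset.sum_le_sum fun k _ => ?_
  have hρC : ContDiff ℝ 1 (den F) := den_C1 hF
  have hA : 0 ≤ ∑ i, LTd.pd k (F i) x ^ 2 := Finset.sum_nonneg fun i _ => sq_nonneg _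
  rcases (den_nonneg F x).lt_or_eq with hr | hr
  swap
  · -- zero density
    have h1 : ∀ w ∈ Finset.range M, ∑ i,
        LTd.pd k (fun x => wf L ω c w (den F x) * F i x) x ^ 2 = 0 := by
      intro w _
      refine Finset.sum_eq_zero fun i _ => ?_
      have h2 : HasDerivAt (wf L ω c w) 0 (den F x) :=
        wf_deriv_zero hL c hω w hr.symm.le
      rw [pd_win hρC (hF i) x h2 k, wf_nonpos hr.symm.le]
      ring
    rw [Finset.sum_eq_zero h1, ← hr, div_zero]
    positivity
  have hrdef : den F x = ∑ i, F i x ^ 2 := rfl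
  set r := den F x with hr0
  set P := LTd.pd k (den F) x with hP
  set A := ∑ i, LTd.pd k (F i) x ^ 2 with hAdef
  set t₀ := c - Real.log r / ω with ht₀
  have ht : 0 ≤ t₀ := by
    have h1 : Real.log r ≤ ω * c := (Real.log_le_iff_le_exp hr).2 hc
    have : Real.log r / ω ≤ c := by rw [div_le_iff₀ hω]; linarith
    linarith
  have hPeq : P = 2 * ∑ i, F i x * LTd.pd k (F i) x := pd_den hF x k
  have hP4 : P ^ 2 ≤ 4 * A * r := by
    have := pd_den_sq hF x k
    rw [← hr0, ← hP, ← hAdef] at this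
    linarith
  have hterm : ∀ w : ℕ, ∑ i,
      LTd.pd k (fun x => wf L ω c w (den F x) * F i x) x ^ 2 =
      Real.cos (angL (L - 1) (w * L - t₀)) ^ 2 * A -
      Real.cos (angL (L - 1) (w * L - t₀)) * Real.sin (angL (L - 1) (w * L - t₀)) *
        deriv (angL (L - 1)) (w * L - t₀) * (P ^ 2 / (ω * r)) +
        Real.sin (angL (L - 1) (w * L - t₀)) ^ 2 * deriv (angL (L - 1)) (w * L - t₀) ^ 2 *
          (P ^ 2 / (ω * r)) / ω := by
    intro w
    have harg : Real.log r / ω - c + w * L = w * L - t₀ := by rw [ht₀]; ring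
    have h2 : HasDerivAt (wf L ω c w) (-Real.sin (angL (L - 1) (w * L - t₀)) *
        (deriv (angL (L - 1)) (w * L - t₀) * (r⁻¹ / ω))) (den F x) := by
      have := wf_deriv (L := L) (ω := ω) (c := c) (w := w) hr
      rwa [harg] at this
    have hw : wf L ω c w (den F x) = Real.cos (angL (L - 1) (w * L - t₀)) := by
      show wf L ω c w r = _
      unfold wf
      rw [if_pos hr, harg]
    have h3 : ∀ i, LTd.pd k (fun x => wf L ω c w (den F x) * F i x) x ^ 2 =
        (-Real.sin (angL (L - 1) (w * L - t₀)) * (deriv (angL (L - 1)) (w * L - t₀) * (r⁻¹ / ω)) * P) ^ 2 *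
          F i x ^ 2 +
        (2 * (-Real.sin (angL (L - 1) (w * L - t₀)) * (deriv (angL (L - 1)) (w * L - t₀) *
          (r⁻¹ / ω)) * P) * Real.cos (angL (L - 1) (w * L - t₀))) * (F i x * LTd.pd k (F i) x) +
        Real.cos (angL (L - 1) (w * L - t₀)) ^ 2 * LTd.pd k (F i) x ^ 2 := fun i => by
      rw [pd_win hρC (hF i) x h2 k, hw]
      ring
    simp only [h3]
    rw [Finset.sum_add_distrib, Finset.sum_add_distrib, ← Finset.mul_sum, ← Finset.mul_sum,
      ← Finset.mul_sum, ← hrdef, ← hAdef]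
    have h5 : ∑ i, F i x * LTd.pd k (F i) x = P / 2 := by rw [hPeq]; ring
    rw [h5]
    have hr' : r ≠ 0 := hr.ne'
    field_simp
    ring
  simp only [hterm]
  have hB : 0 ≤ P ^ 2 / (ω * r) := by positivity
  have hAB : P ^ 2 / (ω * r) * ω ≤ 4 * A := by
    have : P ^ 2 / (ω * r) * ω = P ^ 2 / r := by field_simp
    rw [this, div_le_iff₀ hr]
    exact hP4
  refine (imsF hL hω hC hB hAB ht M).trans (le_of_eq ?_)
  have hr' : r ≠ 0 := hr.ne'
  field_simp

/-- where the cosine vanishes the derivative of the angle vanishes -/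
theorem dangL_of_cos {a : ℝ} (ha : 0 ≤ a) {t : ℝ} (h : Real.cos (angL a t) = 0) :
    deriv (angL a) t = 0 := by
  have h1 : angL a t = π / 2 := by
    by_contra hne
    have h2 := angL_le ha t
    have h3 := angL_nonneg (a := a) t
    have h4 : angL a t < π / 2 := lt_of_le_of_ne h2 hne
    have := Real.cos_pos_of_mem_Ioo ⟨by linarith [Real.pi_pos], h4⟩
    linarith
  have : IsLocalMax (angL a) t := Eventually.of_forall fun s => by
    rw [h1]; exact angL_le ha s
  exact this.deriv_eq_zero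

/-- The Fisher information density of a window. -/
theorem fd_win {n : ℕ} {F : Fin n → (Fin d → ℝ) → ℝ} (hF : ∀ i, ContDiff ℝ 1 (F i))
    {L : ℕ} (hL : 1 ≤ L) {ω c : ℝ} (hω : 0 < ω) (x : Fin d → ℝ) (hr : 0 < den F x) (w : ℕ) :
    fd (fun i x => wf L ω c w (den F x) * F i x) x =
      (Real.cos (angL (L - 1) (w * L - (c - Real.log (den F x) / ω))) -
        2 * Real.sin (angL (L - 1) (w * L - (c - Real.log (den F x) / ω))) *
        deriv (angL (L - 1)) (w * L - (c - Real.log (den F x) / ω)) / ω) ^ 2 * fd F x := by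
  have hL' : (1 : ℝ) ≤ L := by exact_mod_cast hL
  have hρC : ContDiff ℝ 1 (den F) := den_C1 hF
  unfold fd
  rw [Finset.mul_sum]
  refine Finset.sum_congr rfl fun k _ => ?_
  have hden : den (fun i x => wf L ω c w (den F x) * F i x) =
      fun x => (fun r => wf L ω c w r ^ 2) (den F x) * den F x := by
    funext y
    simp only [den, mul_pow, Finset.mul_sum]
  rw [hden]
  set r := den F x with hr0
  set t₀ := c - Real.log r / ω with ht₀
  have harg : Real.log r / ω - c + w * L = w * L - t₀ := by rw [ht₀]; ring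
  have h2 : HasDerivAt (wf L ω c w) (-Real.sin (angL (L - 1) (w * L - t₀)) *
      (deriv (angL (L - 1)) (w * L - t₀) * (r⁻¹ / ω))) (den F x) := by
    have := wf_deriv (L := L) (ω := ω) (c := c) (w := w) hr
    rwa [harg] at this
  have hw : wf L ω c w r = Real.cos (angL (L - 1) (w * L - t₀)) := by
    unfold wf
    rw [if_pos hr, harg]
  have h3 : HasDerivAt (fun r => wf L ω c w r ^ 2) (2 * wf L ω c w (den F x) *
      (-Real.sin (angL (L - 1) (w * L - t₀)) *
      (deriv (angL (L - 1)) (w * L - t₀) * (r⁻¹ / ω)))) (den F x) := by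
    have := h2.fun_pow 2
    simpa using this
  rw [pd_win hρC hρC x h3 k]
  show (2 * wf L ω c w r * (-Real.sin (angL (L - 1) (w * L - t₀)) *
      (deriv (angL (L - 1)) (w * L - t₀) * (r⁻¹ / ω))) * LTd.pd k (den F) x * r +
      wf L ω c w r ^ 2 * LTd.pd k (den F) x) ^ 2 / (wf L ω c w r ^ 2 * r) =
      (Real.cos (angL (L - 1) (w * L - t₀)) - 2 * Real.sin (angL (L - 1) (w * L - t₀)) *
        deriv (angL (L - 1)) (w * L - t₀) / ω) ^ 2 * (LTd.pd k (den F) x ^ 2 / r)
  rw [hw]
  generalize LTd.pd k (den F) x = P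
  clear h2 h3 hw hden
  clear_value r
  set X := Real.cos (angL (L - 1) (w * L - t₀)) with hX
  set Y := Real.sin (angL (L - 1) (w * L - t₀))
  set D := deriv (angL (L - 1)) (w * L - t₀) with hD
  have hr' : r ≠ 0 := hr.ne'
  by_cases hX0 : X = 0
  · have hD0 : D = 0 := dangL_of_cos (by linarith) hX0
    rw [hX0, hD0]
    simp
  · field_simp
    ring

/-- The sum of the Fisher weights. -/
theorem fis_sum {L : ℕ} (hL : 1 ≤ L) {ω : ℝ} {t₀ : ℝ} (ht : 0 ≤ t₀) {M : ℕ}
    (hM : ⌊t₀ / L⌋₊ + 1 < M) :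
    1 ≤ ∑ w ∈ Finset.range M, (Real.cos (angL (L - 1) (w * L - t₀)) -
        2 * Real.sin (angL (L - 1) (w * L - t₀)) *
        deriv (angL (L - 1)) (w * L - t₀) / ω) ^ 2 := by
  have hL' : (1 : ℝ) ≤ L := by exact_mod_cast hL
  have hL0 : (0 : ℝ) < L := by linarith
  have ha : (0 : ℝ) ≤ L - 1 := by linarith
  set g : ℕ → ℝ := fun w => (Real.cos (angL (L - 1) (w * L - t₀)) -
        2 * Real.sin (angL (L - 1) (w * L - t₀)) *
        deriv (angL (L - 1)) (w * L - t₀) / ω) ^ 2 with hg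
  set p := ⌊t₀ / L⌋₊ with hp
  have hp1 : (p : ℝ) ≤ t₀ / L := Nat.floor_le (by positivity)
  have hp2 : t₀ / L < p + 1 := Nat.lt_floor_add_one _
  rw [le_div_iff₀ hL0] at hp1
  rw [div_lt_iff₀ hL0] at hp2
  have hz : ∀ w, w ≠ p → w ≠ p + 1 → g w = 0 := by
    intro w h1 h2
    have h3 := far hL ht h1 h2
    have h3' : 1 ≤ (w : ℝ) * L - t₀ ∨ (w : ℝ) * L - t₀ ≤ -((L : ℝ) - 1) - 1 := by
      rcases h3 with h | h
      · left; exact h
      · right; linarith
    simp only [hg]
    rw [angL_out ha h3', dangL_out ha h3', Real.cos_pi_div_two]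
    ring
  rw [Pool.Agent.L7h99.LS.sum_two g p hz M, if_pos (by omega : p < M), if_pos hM]
  set t : ℝ := ((p : ℝ) + 1) * L - t₀ with htd
  have ht0 : 0 ≤ t := by linarith
  have h6 : t ≤ L := by linarith
  have e1 : (p : ℝ) * L - t₀ = t - 1 - (L - 1) := by rw [htd]; ring
  have e2 : ((p + 1 : ℕ) : ℝ) * L - t₀ = t := by rw [htd]; push_cast; ring
  simp only [hg]
  rw [e1, e2]
  rcases le_or_gt t 1 with ht1 | ht1
  · rw [angL_shift ha ht0 ht1, dangL_shift ha ht0 ht1, Real.cos_pi_div_two_sub,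
      Real.sin_pi_div_two_sub]
    have hsc := Real.sin_sq_add_cos_sq (angL (L - 1) t)
    set x := Real.cos (angL (L - 1) t)
    set y := Real.sin (angL (L - 1) t)
    set D := deriv (angL (L - 1)) t with hDdef
    have e3 : (y - 2 * x * -D / ω) ^ 2 + (x - 2 * y * D / ω) ^ 2 =
        (y ^ 2 + x ^ 2) * (1 + 4 * (D / ω) ^ 2) := by
      ring
    rw [e3, hsc, one_mul]
    have : 0 ≤ (D / ω) ^ 2 := sq_nonneg _
    linarith
  · rw [angL_in ha (t := t - 1 - (L - 1)) (by linarith) (by linarith), Real.cos_zero,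
      Real.sin_zero]
    have h7 := sq_nonneg (Real.cos (angL (L - 1) t) - 2 * Real.sin (angL (L - 1) t) *
      deriv (angL (L - 1)) t / ω)
    have e4 : ((1:ℝ) - 2 * 0 * deriv (angL (L - 1)) (t - 1 - (L - 1)) / ω) ^ 2 = 1 := by ring
    rw [e4]
    linarith

/-- The sum of the Fisher information densities of the windows. -/
theorem fd_sum {n : ℕ} {F : Fin n → (Fin d → ℝ) → ℝ} (hF : ∀ i, ContDiff ℝ 1 (F i))
    {L : ℕ} (hL : 1 ≤ L) {ω c : ℝ} (hω : 0 < ω) (x : Fin d → ℝ)
    (hc : den F x ≤ Real.exp (ω * c)) (M : ℕ) :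
    {x | ω * (c - (M - 1) * L) < Real.log (den F x)}.indicator (fd F) x ≤
      ∑ w ∈ Finset.range M, fd (fun i x => wf L ω c w (den F x) * F i x) x := by
  have hL' : (1 : ℝ) ≤ L := by exact_mod_cast hL
  have hL0 : (0 : ℝ) < L := by linarith
  have hnn : 0 ≤ ∑ w ∈ Finset.range M, fd (fun i x => wf L ω c w (den F x) * F i x) x :=
    Finset.sum_nonneg fun w _ => fd_nonneg _ x
  by_cases hx : x ∈ {x | ω * (c - (M - 1) * L) < Real.log (den F x)}
  swap
  · rw [indicator_of_notMem hx]; exact hnn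
  rw [indicator_of_mem hx]
  rcases (den_nonneg F x).lt_or_eq with hr | hr
  swap
  · have : fd F x = 0 := by
      unfold fd
      refine Finset.sum_eq_zero fun k _ => ?_
      rw [← hr, div_zero]
    rw [this]; exact hnn
  set t₀ := c - Real.log (den F x) / ω with ht₀
  have ht : 0 ≤ t₀ := by
    have h1 : Real.log (den F x) ≤ ω * c := (Real.log_le_iff_le_exp hr).2 hc
    have : Real.log (den F x) / ω ≤ c := by rw [div_le_iff₀ hω]; linarith
    linarith
  have hM : ⌊t₀ / L⌋₊ + 1 < M := by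
    by_contra hcon
    push Not at hcon
    have h1 : (⌊t₀ / L⌋₊ : ℝ) ≤ t₀ / L := Nat.floor_le (by positivity)
    rw [le_div_iff₀ hL0] at h1
    have h2 : (M : ℝ) ≤ (⌊t₀ / L⌋₊ : ℝ) + 1 := by exact_mod_cast hcon
    have h3 : ((M:ℝ) - 1) * L ≤ t₀ := by nlinarith
    have h4 : Real.log (den F x) = ω * (c - t₀) := by rw [ht₀]; field_simp; ring
    have h5 : ω * (c - (M - 1) * L) < Real.log (den F x) := hx
    rw [h4] at h5
    have h6 := lt_of_mul_lt_mul_left h5 hω.le
    linarith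
  simp only [fd_win hF hL hω x hr]
  rw [← Finset.sum_mul]
  exact le_mul_of_one_le_left (fd_nonneg F x) (fis_sum hL ht hM)

/-- The inequality for densities in a window, with the Fisher information. -/
def WinF (d : ℕ) (ε W : ℝ) : Prop := ∀ A : ℝ, 0 < A → ∀ Ω : Set (Fin d → ℝ),
  MeasurableSet Ω → volume Ω ≠ ∞ → ∀ (n : ℕ) (f : Fin n → (Fin d → ℝ) → ℝ),
  (∀ i, ContDiff ℝ 1 (f i)) → (∀ i, HasCompactSupport (f i)) → (∀ i, ∀ x ∉ Ω, f i x = 0) →
  Gram1 f → (∀ x, den f x ≤ A * Real.exp W) →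
  LTd.Kcl d * (∫ x, den f x ^ (1 + 2 / (d:ℝ))) + 1 / 16 * fis0 f ≤
    kin f + ε * A ^ (2 / (d:ℝ)) * ((∫ x, den f x) + A * (volume Ω).toReal)

/-- One shift. -/
theorem one_shiftF {C : ℝ} (hC : ∀ a t, |deriv (angL a) t| ≤ C) (hd : 1 ≤ d) {L : ℕ} (hL : 1 ≤ L)
    {ω ε : ℝ} (hω : 0 < ω) (hε : 0 < ε) (hW : WinF d ε (ω * (L + 1))) {n : ℕ}
    {F : Fin n → (Fin d → ℝ) → ℝ} (hF : ∀ i, ContDiff ℝ 1 (F i))
    (hFc : ∀ i, HasCompactSupport (F i)) (hG : Gram1 F) {c : ℝ}
    (hρc : ∀ x, den F x ≤ Real.exp (ω * c)) (M : ℕ) :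
    LTd.Kcl d * (∫ x, (∑ w ∈ Finset.range M, (wf L ω c w (den F x) ^ 2) ^ (1 + 2 / (d:ℝ))) *
      den F x ^ (1 + 2 / (d:ℝ))) +
      1 / 16 * (∫ x, {x | ω * (c - (M - 1) * L) < Real.log (den F x)}.indicator (fd F) x) ≤
      (kin F + C ^ 2 / ω ^ 2 * fis0 F) + 3 * ε * ∫ x, den F x ^ (1 + 2 / (d:ℝ)) := by
  have hd0 : (0:ℝ) < d := by exact_mod_cast hd
  set δ : ℝ := 2 / (d:ℝ) with hδd
  have hδ : 0 < δ := by positivity
  set ρ : (Fin d → ℝ) → ℝ := den F with hρ
  have hρC : ContDiff ℝ 1 ρ := den_C1 hF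
  have hρcont : Continuous ρ := hρC.continuous
  have hρs : HasCompactSupport ρ := den_supp hFc
  have hρ0 : ∀ x, 0 ≤ ρ x := den_nonneg F
  have hcw : ∀ w, Continuous fun x => wf L ω c w (ρ x) := fun w =>
    (wf_contDiff hL c hω w).continuous.comp hρcont
  have hpc : Continuous fun x => ρ x ^ (1 + δ) :=
    hρcont.rpow_const fun x => Or.inr (by positivity)
  have hps : HasCompactSupport fun x => ρ x ^ (1 + δ) := by
    refine hρs.comp_left (g := fun r : ℝ => r ^ (1 + δ)) ?_
    exact Real.zero_rpow (by positivity)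
  have hpi : Integrable fun x => ρ x ^ (1 + δ) := hpc.integrable_of_hasCompactSupport hps
  set f : ℕ → Fin n → (Fin d → ℝ) → ℝ := fun w i x => wf L ω c w (ρ x) * F i x with hf
  set cond : ℕ → ℝ → Prop := fun w r => -(L:ℝ) < Real.log r / ω - c + w * L ∧
      Real.log r / ω - c + w * L < 1 with hcond
  set Ω : ℕ → Set (Fin d → ℝ) := fun w => {x | 0 < ρ x ∧ cond w (ρ x)} with hΩ
  have hlogm : Measurable fun x => Real.log (ρ x) := Real.measurable_log.comp hρcont.measurable
  have hcm : ∀ w, MeasurableSet {x | cond w (ρ x)} := fun w => by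
    have h1 : Measurable fun x => Real.log (ρ x) / ω - c + w * L :=
      ((hlogm.div_const ω).sub_const c).add_const _
    exact (measurableSet_lt measurable_const h1).inter (measurableSet_lt h1 measurable_const)
  have hΩm : ∀ w, MeasurableSet (Ω w) := fun w =>
    (measurableSet_lt measurable_const hρcont.measurable).inter (hcm w)
  have hΩf : ∀ w, volume (Ω w) ≠ ∞ := fun w => by
    refine ne_of_lt (lt_of_le_of_lt (measure_mono fun x hx => ?_) hρs.measure_lt_top)
    exact subset_tsupport _ (Function.mem_support.2 hx.1.ne')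
  have hfC : ∀ w i, ContDiff ℝ 1 (f w i) := fun w i =>
    ((wf_contDiff hL c hω w).comp hρC).mul (hF i)
  have hfs : ∀ w i, HasCompactSupport (f w i) := fun w i => (hFc i).mul_left
  have hwz : ∀ w, ∀ x ∉ Ω w, wf L ω c w (ρ x) = 0 := fun w x hx => by
    by_cases h0 : 0 < ρ x
    · refine wf_zero hL ?_
      by_contra hcon
      push Not at hcon
      exact hx ⟨h0, hcon.2, hcon.1⟩
    · exact wf_nonpos (not_lt.1 h0)
  have hf0 : ∀ w i, ∀ x ∉ Ω w, f w i x = 0 := fun w i x hx => by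
    simp only [hf, hwz w x hx, zero_mul]
  have hfsum : ∀ w x, den (f w) x = wf L ω c w (ρ x) ^ 2 * ρ x := fun w x => by
    simp only [hf, hρ, den, mul_pow, Finset.mul_sum]
  have hfG : ∀ w, Gram1 (f w) := by
    intro w v
    refine le_trans ?_ (hG v)
    have hc1 : Continuous fun x => ∑ i, v i * F i x :=
      continuous_finsetSum _ fun i _ => continuous_const.mul (hF i).continuous
    have hs1 : HasCompactSupport fun x => ∑ i, v i * F i x := by
      refine HasCompactSupport.intro (K := ⋃ i, tsupport (F i))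
        (isCompact_iUnion fun i => hFc i) fun x hx => ?_
      refine Finset.sum_eq_zero fun i _ => ?_
      have : x ∉ tsupport (F i) := fun hx' => hx (mem_iUnion.2 ⟨i, hx'⟩)
      rw [image_eq_zero_of_notMem_tsupport this, mul_zero]
    have hs2 : HasCompactSupport fun x => (∑ i, v i * F i x) ^ 2 :=
      hs1.comp_left (g := fun r : ℝ => r ^ 2) (by simp)
    have hi1 : Integrable fun x => (∑ i, v i * F i x) ^ 2 :=
      (hc1.pow 2).integrable_of_hasCompactSupport hs2
    have e1 : ∀ x, (∑ i, v i * f w i x) ^ 2 =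
        wf L ω c w (ρ x) ^ 2 * (∑ i, v i * F i x) ^ 2 := fun x => by
      rw [← mul_pow, Finset.mul_sum]
      congr 1
      exact Finset.sum_congr rfl fun i _ => by simp only [hf]; ring
    have hi2 : Integrable fun x => wf L ω c w (ρ x) ^ 2 * (∑ i, v i * F i x) ^ 2 :=
      (((hcw w).pow 2).mul (hc1.pow 2)).integrable_of_hasCompactSupport hs2.mul_left
    simp only [e1]
    refine integral_mono hi2 hi1 fun x => ?_
    exact mul_le_of_le_one_left (sq_nonneg _) (wf_sq_le _ _ _ _ _)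
  -- integrability
  have j1 : ∀ w, Integrable fun x => wf L ω c w (ρ x) ^ 2 * ρ x ^ (1 + δ) := fun w =>
    (((hcw w).pow 2).mul hpc).integrable_of_hasCompactSupport hps.mul_left
  have j2 : ∀ w, Integrable fun x => (wf L ω c w (ρ x) ^ 2) ^ (1 + δ) * ρ x ^ (1 + δ) := fun w =>
    ((((hcw w).pow 2).rpow_const fun x => Or.inr (by positivity)).mul
      hpc).integrable_of_hasCompactSupport hps.mul_left
  have j4 : ∀ w, Integrable fun x => (if cond w (ρ x) then (1:ℝ) else 0) * ρ x ^ (1 + δ) := fun w => by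
    have h1 : Integrable (indicator {x | cond w (ρ x)} fun x => ρ x ^ (1 + δ)) :=
      hpi.indicator (hcm w)
    refine h1.congr (Eventually.of_forall fun x => ?_)
    simp only [indicator, mem_ofPred_eq]
    split_ifs <;> simp
  have j3 : ∀ w, Integrable fun x => ∑ k, ∑ i, LTd.pd k (f w i) x ^ 2 := fun w =>
    kin_integrable (hfC w) (hfs w)
  have j6 : ∀ w, Integrable (fd (f w)) := fun w => fd_integrable (hfC w) (hfs w)
  -- the windows
  have hwin : ∀ w : ℕ, LTd.Kcl d * (∫ x, (wf L ω c w (ρ x) ^ 2) ^ (1 + δ) * ρ x ^ (1 + δ)) +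
      1 / 16 * (∫ x, fd (f w) x) ≤
      kin (f w) + ε * ((∫ x, wf L ω c w (ρ x) ^ 2 * ρ x ^ (1 + δ)) +
        ∫ x, (if cond w (ρ x) then (1:ℝ) else 0) * ρ x ^ (1 + δ)) := by
    intro w
    set A : ℝ := Real.exp (ω * (c - w * L - L)) with hAd
    have hA : 0 < A := Real.exp_pos _
    have hAρ : ∀ x ∈ Ω w, A ≤ ρ x := by
      intro x hx
      have h2 := hx.2.1
      have h3 : c - w * L - L ≤ Real.log (ρ x) / ω := by linarith
      rw [le_div_iff₀ hω] at h3
      rw [hAd, ← Real.le_log_iff_exp_le hx.1]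
      linarith
    have hden : ∀ x, den (f w) x ≤ A * Real.exp (ω * (L + 1)) := by
      intro x
      rw [hfsum]
      by_cases hx : x ∈ Ω w
      · have h1 : ρ x ≤ A * Real.exp (ω * (L + 1)) := by
          rw [hAd, ← Real.exp_add, ← Real.log_le_iff_le_exp hx.1]
          have h2 := hx.2.2.le
          have h3 : Real.log (ρ x) / ω ≤ c - w * L + 1 := by linarith
          rw [div_le_iff₀ hω] at h3
          linarith
        exact (mul_le_of_le_one_left (hρ0 x) (wf_sq_le _ _ _ _ _)).trans h1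
      · rw [hwz w x hx]
        have : (0:ℝ) ^ 2 * ρ x = 0 := by ring
        rw [this]
        positivity
    have key := hW A hA (Ω w) (hΩm w) (hΩf w) n (f w) (hfC w) (hfs w) (hf0 w) (hfG w) hden
    have e1 : (∫ x, den (f w) x ^ (1 + 2 / (d:ℝ))) =
        ∫ x, (wf L ω c w (ρ x) ^ 2) ^ (1 + δ) * ρ x ^ (1 + δ) := by
      refine integral_congr_ae (Eventually.of_forall fun x => ?_)
      show den (f w) x ^ (1 + 2 / (d:ℝ)) = (wf L ω c w (ρ x) ^ 2) ^ (1 + δ) * ρ x ^ (1 + δ)
      rw [hfsum, Real.mul_rpow (sq_nonneg _) (hρ0 x)]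
    rw [e1, fis0_eq] at key
    refine key.trans ?_
    have hAδ : 0 < A ^ δ := Real.rpow_pos_of_pos hA _
    have b1 : A ^ δ * (∫ x, den (f w) x) ≤ ∫ x, wf L ω c w (ρ x) ^ 2 * ρ x ^ (1 + δ) := by
      rw [← integral_const_mul]
      have hi : Integrable (den (f w)) :=
        (den_C1 (hfC w)).continuous.integrable_of_hasCompactSupport (den_supp (hfs w))
      refine integral_mono (hi.const_mul _) (j1 w) fun x => ?_
      show A ^ δ * den (f w) x ≤ wf L ω c w (ρ x) ^ 2 * ρ x ^ (1 + δ)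
      rw [hfsum]
      by_cases hx : x ∈ Ω w
      · have h1 : A ^ δ ≤ ρ x ^ δ := Real.rpow_le_rpow hA.le (hAρ x hx) hδ.le
        rw [Real.rpow_add hx.1, Real.rpow_one]
        have h2 : 0 ≤ wf L ω c w (ρ x) ^ 2 * ρ x := mul_nonneg (sq_nonneg _) (hρ0 x)
        nlinarith
      · rw [hwz w x hx]
        simp
    have b2 : A ^ δ * (A * (volume (Ω w)).toReal) ≤
        ∫ x, (if cond w (ρ x) then (1:ℝ) else 0) * ρ x ^ (1 + δ) := by
      have e2 : A ^ δ * (A * (volume (Ω w)).toReal) =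
          ∫ x, (Ω w).indicator (fun _ => A ^ (1 + δ)) x := by
        rw [integral_indicator (hΩm w), setIntegral_const, smul_eq_mul, Measure.real,
          Real.rpow_add hA, Real.rpow_one]
        ring
      rw [e2]
      have hi : Integrable ((Ω w).indicator (fun _ => A ^ (1 + δ))) :=
        (integrable_indicator_iff (hΩm w)).2 (integrableOn_const (hΩf w))
      refine integral_mono hi (j4 w) fun x => ?_
      show (Ω w).indicator (fun _ => A ^ (1 + δ)) x ≤
        (if cond w (ρ x) then (1:ℝ) else 0) * ρ x ^ (1 + δ)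
      by_cases hx : x ∈ Ω w
      · rw [indicator_of_mem hx, if_pos hx.2, one_mul]
        exact Real.rpow_le_rpow hA.le (hAρ x hx) (by positivity)
      · rw [indicator_of_notMem hx]
        have := Real.rpow_nonneg (hρ0 x) (1 + δ)
        split_ifs <;> simp [this]
    have e3 : ε * A ^ (2 / (d:ℝ)) * ((∫ x, den (f w) x) + A * (volume (Ω w)).toReal) =
        ε * (A ^ δ * (∫ x, den (f w) x) + A ^ δ * (A * (volume (Ω w)).toReal)) := by
      rw [hδd]; ring
    rw [e3]
    have := mul_le_mul_of_nonneg_left (add_le_add b1 b2) hε.le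
    linarith
  -- sum
  have hsum := Finset.sum_le_sum fun w (_ : w ∈ Finset.range M) => hwin w
  rw [Finset.sum_add_distrib, ← Finset.mul_sum, ← Finset.mul_sum, Finset.sum_add_distrib,
    ← Finset.mul_sum, Finset.sum_add_distrib,
    ← integral_finsetSum _ fun w _ => j2 w, ← integral_finsetSum _ fun w _ => j1 w,
    ← integral_finsetSum _ fun w _ => j4 w, ← integral_finsetSum _ fun w _ => j6 w] at hsum
  have e0 : (∫ x, (∑ w ∈ Finset.range M, (wf L ω c w (ρ x) ^ 2) ^ (1 + δ)) * ρ x ^ (1 + δ)) =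
      ∫ x, ∑ w ∈ Finset.range M, (wf L ω c w (ρ x) ^ 2) ^ (1 + δ) * ρ x ^ (1 + δ) := by
    refine integral_congr_ae (Eventually.of_forall fun x => ?_)
    show (∑ w ∈ Finset.range M, (wf L ω c w (ρ x) ^ 2) ^ (1 + δ)) * ρ x ^ (1 + δ) =
      ∑ w ∈ Finset.range M, (wf L ω c w (ρ x) ^ 2) ^ (1 + δ) * ρ x ^ (1 + δ)
    rw [Finset.sum_mul]
  rw [e0]
  have hfis : (∫ x, {x | ω * (c - (M - 1) * L) < Real.log (ρ x)}.indicator (fd F) x) ≤
      ∫ x, ∑ w ∈ Finset.range M, fd (f w) x := by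
    have hmS : MeasurableSet {x | ω * (c - (M - 1) * L) < Real.log (ρ x)} :=
      measurableSet_lt measurable_const hlogm
    refine integral_mono ((fd_integrable hF hFc).indicator hmS)
      (integrable_finsetSum _ fun w _ => j6 w) fun x => ?_
    exact fd_sum hF hL hω x (hρc x) M
  have hR : ∑ w ∈ Finset.range M, kin (f w) ≤ kin F + C ^ 2 / ω ^ 2 * fis0 F := by
    unfold kin
    rw [fis0_eq, ← integral_finsetSum _ fun w _ => j3 w, ← integral_const_mul,
      ← integral_add (kin_integrable hF hFc) ((fd_integrable hF hFc).const_mul _)]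
    refine integral_mono (integrable_finsetSum _ fun w _ => j3 w)
      ((kin_integrable hF hFc).add ((fd_integrable hF hFc).const_mul _)) fun x => ?_
    exact local_errF hF hL hω hC x (hρc x) M
  have hm1 : ∫ x, ∑ w ∈ Finset.range M, wf L ω c w (ρ x) ^ 2 * ρ x ^ (1 + δ) ≤
      ∫ x, ρ x ^ (1 + δ) := by
    refine integral_mono (integrable_finsetSum _ fun w _ => j1 w) hpi fun x => ?_
    show ∑ w ∈ Finset.range M, wf L ω c w (ρ x) ^ 2 * ρ x ^ (1 + δ) ≤ ρ x ^ (1 + δ)
    rw [← Finset.sum_mul]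
    rcases (hρ0 x).lt_or_eq with hr | hr
    · exact mul_le_of_le_one_left (Real.rpow_nonneg (hρ0 x) _)
        (wf_mass hL hω hr ((Real.log_le_iff_le_exp hr).2 (hρc x)) M)
    · rw [← hr, Real.zero_rpow (by positivity)]; simp
  have hm2 : ∫ x, ∑ w ∈ Finset.range M, (if cond w (ρ x) then (1:ℝ) else 0) * ρ x ^ (1 + δ) ≤
      2 * ∫ x, ρ x ^ (1 + δ) := by
    rw [← integral_const_mul]
    refine integral_mono (integrable_finsetSum _ fun w _ => j4 w) (hpi.const_mul 2) fun x => ?_
    show ∑ w ∈ Finset.range M, (if cond w (ρ x) then (1:ℝ) else 0) * ρ x ^ (1 + δ) ≤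
      2 * ρ x ^ (1 + δ)
    rw [← Finset.sum_mul]
    rcases (hρ0 x).lt_or_eq with hr | hr
    · exact mul_le_mul_of_nonneg_right
        (count hL hω ((Real.log_le_iff_le_exp hr).2 (hρc x)) M) (Real.rpow_nonneg (hρ0 x) _)
    · rw [← hr, Real.zero_rpow (by positivity)]; simp
  have := mul_le_mul_of_nonneg_left (add_le_add hm1 hm2) hε.le
  linarith

theorem t_ASF : S_ASF := by
  intro hWI ε hε
  obtain ⟨C, hC0, hC⟩ := dangL_bdd
  -- the choice of the width
  set ω : ℝ := max 1 (C / √ε) with hωdef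
  have hω1 : 1 ≤ ω := le_max_left _ _
  have hω : 0 < ω := by linarith
  have hCω : C ^ 2 / ω ^ 2 ≤ ε := by
    have h1 : C / √ε ≤ ω := le_max_right _ _
    have h2 : 0 < √ε := Real.sqrt_pos.2 hε
    rw [div_le_iff₀ h2] at h1
    rw [div_le_iff₀ (by positivity)]
    calc C ^ 2 ≤ (ω * √ε) ^ 2 := pow_le_pow_left₀ hC0 h1 2
      _ = ε * ω ^ 2 := by rw [mul_pow, Real.sq_sqrt hε.le]; ring
  obtain ⟨CW, d₀, hCW, hd₀, hW0⟩ := hWI (ω * ((1:ℕ) + 1)) (by push_cast; linarith)
  refine ⟨3 * CW + 2, d₀, by positivity, hd₀, ?_⟩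
  intro d hd n F hF hFc hG
  have hd4 : 4 ≤ d := hd₀.trans hd
  have hd4' : (4:ℝ) ≤ d := by exact_mod_cast hd4
  have hd0 : (0:ℝ) < d := by linarith
  have hlog1 : 1 ≤ Real.log d := by
    rw [Real.le_log_iff_exp_le hd0]
    have := Real.exp_one_lt_d9
    linarith
  have hld : 0 < Real.log d / d := by positivity
  have hK := Kcl_nonneg' (d := d) (by omega)
  have hKpos : 0 < LTd.Kcl d := by
    rw [Pool.Agent.L7h76.LS.Kcl_eq (by omega)]
    have h1 : 0 < Real.Gamma ((d : ℝ) / 2 + 1) := Real.Gamma_pos_of_pos (by positivity)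
    positivity
  set ε₁ : ℝ := CW * (Real.log d / d) * LTd.Kcl d with hε₁
  have hε₁0 : 0 < ε₁ := by positivity
  have hWF : WinF d ε₁ (ω * ((1:ℕ) + 1)) := by
    intro A hA Ω hΩm hΩf m f hf hfc hf0 hfG hfd
    have := hW0 d hd A hA Ω hΩm hΩf m f hf hfc hf0 hfG hfd
    refine this.trans (le_of_eq ?_)
    rw [hε₁]
    ring
  set δ : ℝ := 2 / (d:ℝ) with hδd
  have hδ : 0 < δ := by positivity
  have hρcont : Continuous (den F) := (den_C1 hF).continuous
  have hρs : HasCompactSupport (den F) := den_supp hFc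
  have hρ0 : ∀ x, 0 ≤ den F x := den_nonneg F
  have hρi : Integrable (den F) := hρcont.integrable_of_hasCompactSupport hρs
  have hpc : Continuous fun x => den F x ^ (1 + δ) :=
    hρcont.rpow_const fun x => Or.inr (by positivity)
  have hps : HasCompactSupport fun x => den F x ^ (1 + δ) := by
    refine hρs.comp_left (g := fun r : ℝ => r ^ (1 + δ)) ?_
    exact Real.zero_rpow (by positivity)
  have hpi : Integrable fun x => den F x ^ (1 + δ) := hpc.integrable_of_hasCompactSupport hps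
  obtain ⟨R₀, hR₀⟩ := hρs.exists_bound_of_continuous hρcont
  set R : ℝ := max R₀ 1 with hR
  have hR1 : 1 ≤ R := le_max_right _ _
  have hρR : ∀ x, den F x ≤ R := fun x =>
    ((le_abs_self _).trans (hR₀ x)).trans (le_max_left _ _)
  set c : ℝ := Real.log R / ω with hcdef
  have hωc : ω * c = Real.log R := by rw [hcdef]; field_simp
  have hexpc : Real.exp (ω * c) = R := by rw [hωc, Real.exp_log (by linarith)]
  set I := ∫ x, den F x ^ (1 + δ) with hI
  have hI0 : 0 ≤ I := integral_nonneg fun x => Real.rpow_nonneg (hρ0 x) _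
  set Λ := ∫ x, den F x with hΛ
  have hfis0 : 0 ≤ fis0 F := by
    rw [fis0_eq]
    exact integral_nonneg fun x => fd_nonneg F x
  set a : ℕ → ℝ := fun M => Real.exp (δ * (ω * (c + (1:ℕ) - (M - 1) * (1:ℕ)))) with ha
  set H : ℕ → ℝ := fun M => ∫ x, {x | ω * (c - (M - 1) * ((1:ℕ):ℝ)) <
    Real.log (den F x)}.indicator (fd F) x with hH
  have hM : ∀ M : ℕ, LTd.Kcl d * ((1 - δ) * I - a M * Λ) + 1 / 16 * H M ≤
      (kin F + C ^ 2 / ω ^ 2 * fis0 F) + 3 * ε₁ * I := by
    intro M
    have h1 := one_shiftF hC (by omega : 1 ≤ d) (le_refl 1) hω hε₁0 hWF hF hFc hG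
      (c := c) (fun x => by rw [hexpc]; exact hρR x) M
    refine le_trans (add_le_add (mul_le_mul_of_nonneg_left ?_ hK) le_rfl) h1
    have e : (1 - δ) * I - a M * Λ =
        ∫ x, ((1 - δ) * den F x ^ (1 + δ) - a M * den F x) := by
      rw [integral_sub (hpi.const_mul _) (hρi.const_mul _), integral_const_mul,
        integral_const_mul]
    rw [e]
    have j5 : Integrable fun x => (∑ w ∈ Finset.range M,
        (wf 1 ω c w (den F x) ^ 2) ^ (1 + δ)) * den F x ^ (1 + δ) := by
      have hc : Continuous fun x => ∑ w ∈ Finset.range M,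
          (wf 1 ω c w (den F x) ^ 2) ^ (1 + δ) :=
        continuous_finsetSum _ fun w _ =>
          ((((wf_contDiff (le_refl 1) c hω w).continuous.comp hρcont).pow 2).rpow_const
            fun x => Or.inr (by positivity))
      exact (hc.mul hpc).integrable_of_hasCompactSupport hps.mul_left
    refine integral_mono ((hpi.const_mul _).sub (hρi.const_mul _)) j5 fun x => ?_
    show (1 - δ) * den F x ^ (1 + δ) - a M * den F x ≤
      (∑ w ∈ Finset.range M, (wf 1 ω c w (den F x) ^ 2) ^ (1 + δ)) * den F x ^ (1 + δ)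
    have hax : 0 < a M := Real.exp_pos _
    rcases (hρ0 x).lt_or_eq with hr | hr
    · have hl : Real.log (den F x) ≤ ω * c := by
        rw [hωc]; exact Real.log_le_log hr (hρR x)
      have hp0 : 0 ≤ den F x ^ (1 + δ) := Real.rpow_nonneg (hρ0 x) _
      have hpm := pow_mass (L := 1) (le_refl 1) hω hδ hr hl M
      rw [Finset.sum_range_one, Nat.cast_zero, add_zero] at hpm
      rcases hpm with h1 | h1
      · have h3 := mul_le_mul_of_nonneg_right h1 hp0
        have h4 : 0 ≤ a M * den F x := by positivity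
        push_cast at h3
        linarith
      · have h3 : den F x ^ (1 + δ) ≤ a M * den F x := by
          rw [Real.rpow_add hr, Real.rpow_one, mul_comm]
          refine mul_le_mul_of_nonneg_right ?_ hr.le
          rw [Real.rpow_def_of_pos hr]
          simp only [ha]
          refine Real.exp_le_exp.2 ?_
          rw [mul_comm]
          exact mul_le_mul_of_nonneg_left h1 hδ.le
        have h4 : 0 ≤ (∑ w ∈ Finset.range M,
            (wf 1 ω c w (den F x) ^ 2) ^ (1 + δ)) * den F x ^ (1 + δ) :=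
          mul_nonneg (Finset.sum_nonneg fun w _ => Real.rpow_nonneg (sq_nonneg _) _) hp0
        nlinarith
    · rw [← hr, Real.zero_rpow (by positivity)]
      simp
  have hlin : Tendsto (fun w : ℕ => ((w : ℝ) - 1) * ((1:ℕ):ℝ)) atTop atTop :=
    (tendsto_atTop_add_const_right _ (-1) tendsto_natCast_atTop_atTop).atTop_mul_const
      (by norm_num)
  have hlim : Tendsto a atTop (𝓝 0) := by
    simp only [ha]
    refine Real.tendsto_exp_atBot.comp ?_
    have h1 : Tendsto (fun w : ℕ => c + ((1:ℕ):ℝ) - ((w : ℝ) - 1) * ((1:ℕ):ℝ)) atTop atBot := by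
      simp only [sub_eq_add_neg _ (_ * _)]
      exact tendsto_atBot_add_const_left _ _ (tendsto_neg_atTop_atBot.comp hlin)
    exact (h1.const_mul_atBot hω).const_mul_atBot hδ
  have hlimH : Tendsto H atTop (𝓝 (fis0 F)) := by
    rw [fis0_eq]
    have hlogm : Measurable fun x => Real.log (den F x) :=
      Real.measurable_log.comp hρcont.measurable
    refine tendsto_integral_of_dominated_convergence (fd F) (fun M => ?_)
      (fd_integrable hF hFc) (fun M => Eventually.of_forall fun x => ?_)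
      (Eventually.of_forall fun x => ?_)
    · exact ((fd_integrable hF hFc).indicator
        (measurableSet_lt measurable_const hlogm)).aestronglyMeasurable
    · rw [Real.norm_eq_abs]
      by_cases hx : x ∈ {x | ω * (c - ((M:ℝ) - 1) * ((1:ℕ):ℝ)) < Real.log (den F x)}
      · rw [indicator_of_mem hx, abs_of_nonneg (fd_nonneg F x)]
      · rw [indicator_of_notMem hx, abs_zero]; exact fd_nonneg F x
    · have h1 : Tendsto (fun w : ℕ => ω * (c - ((w : ℝ) - 1) * ((1:ℕ):ℝ))) atTop atBot := by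
        refine Tendsto.const_mul_atBot hω ?_
        simp only [sub_eq_add_neg _ (_ * _)]
        exact tendsto_atBot_add_const_left _ _ (tendsto_neg_atTop_atBot.comp hlin)
      refine tendsto_const_nhds.congr' ?_
      filter_upwards [h1.eventually (eventually_lt_atBot (Real.log (den F x)))] with M hM
      rw [indicator_of_mem]
      exact hM
  have hlim2 : Tendsto (fun M : ℕ => LTd.Kcl d * ((1 - δ) * I - a M * Λ) + 1 / 16 * H M) atTop
      (𝓝 (LTd.Kcl d * ((1 - δ) * I - 0 * Λ) + 1 / 16 * fis0 F)) :=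
    (((hlim.mul_const _).const_sub _).const_mul _).add (hlimH.const_mul _)
  have hfin := le_of_tendsto' hlim2 hM
  have h1 : C ^ 2 / ω ^ 2 * fis0 F ≤ ε * fis0 F := mul_le_mul_of_nonneg_right hCω hfis0
  have hδ2 : δ ≤ 2 * (Real.log d / d) := by
    rw [hδd]
    have : (2:ℝ) / d ≤ 2 * Real.log d / d := by
      refine div_le_div_of_nonneg_right ?_ hd0.le
      linarith
    linarith [this, mul_div_assoc (2:ℝ) (Real.log d) (d:ℝ)]
  have h2 : (1 - (3 * CW + 2) * (Real.log d / d)) * LTd.Kcl d * I ≤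
      LTd.Kcl d * ((1 - δ) * I) - 3 * ε₁ * I := by
    have h3 : 0 ≤ LTd.Kcl d * I := mul_nonneg hK hI0
    have h4 := mul_le_mul_of_nonneg_right hδ2 h3
    rw [hε₁]
    nlinarith
  linarith

end Pool.Agent.L7h23.GF
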